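import Pool.Agent.helper45.TF.Defs2

/-! Module TZ: a surface whose vertices in every half-space are connected through edges in this
half-space is 0-tight. -/

namespace Pool.Agent.helper45.TF

open Set Topology

lemma TZ_convex {h : Set E3} (hh : IsHalfSpace h) : Convex ℝ h ∧ Convex ℝ hᶜ := by
  obtain ⟨a, -, c, rfl | rfl⟩ := hh
  · refine ⟨?_, ?_⟩
    · intro x hx y hy s t hs ht hst
      simp only [Set.mem_ofPred_eq, inner_add_right, inner_smul_right] at *
      have h1 : c = s * c + t * c := by rw [← add_mul, hst, one_mul]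
      have := mul_le_mul_of_nonneg_left hx hs
      have := mul_le_mul_of_nonneg_left hy ht
      linarith
    · intro x hx y hy s t hs ht hst
      simp only [mem_compl_iff, Set.mem_ofPred_eq, inner_add_right, inner_smul_right, not_le] at *
      have h1 : c = s * c + t * c := by rw [← add_mul, hst, one_mul]
      rcases hs.lt_or_eq with h2 | h2
      · have := mul_lt_mul_of_pos_left hx h2
        have := mul_le_mul_of_nonneg_left hy.le ht
        linarith
      · have h3 : t = 1 := by linarith
        rw [← h2, h3]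
        linarith
  · refine ⟨?_, ?_⟩
    · intro x hx y hy s t hs ht hst
      simp only [Set.mem_ofPred_eq, inner_add_right, inner_smul_right] at *
      have h1 : c = s * c + t * c := by rw [← add_mul, hst, one_mul]
      rcases hs.lt_or_eq with h2 | h2
      · have := mul_lt_mul_of_pos_left hx h2
        have := mul_le_mul_of_nonneg_left hy.le ht
        linarith
      · have h3 : t = 1 := by linarith
        rw [← h2, h3]
        linarith
    · intro x hx y hy s t hs ht hst
      simp only [mem_compl_iff, Set.mem_ofPred_eq, inner_add_right, inner_smul_right, not_lt] at *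
      have h1 : c = s * c + t * c := by rw [← add_mul, hst, one_mul]
      have := mul_le_mul_of_nonneg_left hx hs
      have := mul_le_mul_of_nonneg_left hy ht
      linarith

set_option linter.unusedSectionVars false

variable {V : Type} [Fintype V] [DecidableEq V]

lemma TZ_polyMap_comb (p : V → E3) (x y : V → ℝ) (s t : ℝ) :
    polyMap p (s • x + t • y) = s • polyMap p x + t • polyMap p y := by
  simp only [polyMap, Finset.smul_sum, ← Finset.sum_add_distrib]
  refine Finset.sum_congr rfl fun v _ => ?_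
  simp only [Pi.add_apply, Pi.smul_apply, smul_eq_mul, add_smul, mul_smul]

lemma TZ_polyMap_vert (p : V → E3) (v : V) : polyMap p (vert v) = p v := by
  simp only [polyMap, vert, ite_smul, one_smul, zero_smul]
  simp

lemma TZ_cell_convex (s : Finset V) : Convex ℝ (cell s) := by
  intro x hx y hy a b ha hb hab
  obtain ⟨h1, h2, h3⟩ := hx
  obtain ⟨k1, k2, k3⟩ := hy
  refine ⟨fun v => ?_, ?_, fun v hv => ?_⟩
  · simp only [Pi.add_apply, Pi.smul_apply, smul_eq_mul]
    exact add_nonneg (mul_nonneg ha (h1 v)) (mul_nonneg hb (k1 v))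
  · simp only [Pi.add_apply, Pi.smul_apply, smul_eq_mul, Finset.sum_add_distrib,
      ← Finset.mul_sum, h2, k2]
    linarith
  · simp only [Pi.add_apply, Pi.smul_apply, smul_eq_mul, h3 v hv, k3 v hv]
    ring

lemma TZ_vert_cell {s : Finset V} {v : V} (hv : v ∈ s) : vert v ∈ cell s := by
  refine ⟨fun w => ?_, ?_, fun w hw => ?_⟩
  · unfold vert
    split_ifs <;> norm_num
  · simp [vert]
  · unfold vert
    rw [if_neg]
    rintro rfl
    exact hw hv

/-- a positive vertex inside the half-space -/
lemma TZ_exists_vert {p : V → E3} {h : Set E3} (hc : Convex ℝ hᶜ) {s : Finset V} {x : V → ℝ}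
    (hx : x ∈ cell s) (hxh : polyMap p x ∈ h) : ∃ v ∈ s, 0 < x v ∧ p v ∈ h := by
  by_contra hcon
  push Not at hcon
  obtain ⟨h1, h2, h3⟩ := hx
  have hmem : polyMap p x ∈ hᶜ := by
    have hsum : polyMap p x = ∑ v ∈ Finset.univ.filter (fun v => 0 < x v), x v • p v := by
      unfold polyMap
      symm
      refine Finset.sum_subset (Finset.subset_univ _) fun v _ hv => ?_
      have : x v = 0 := by
        by_contra h0
        exact hv (Finset.mem_filter.2 ⟨Finset.mem_univ v, lt_of_le_of_ne (h1 v) (Ne.symm h0)⟩)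
      rw [this, zero_smul]
    have hone : ∑ v ∈ Finset.univ.filter (fun v => 0 < x v), x v = 1 := by
      rw [← h2]
      refine Finset.sum_subset (Finset.subset_univ _) fun v _ hv => ?_
      by_contra h0
      exact hv (Finset.mem_filter.2 ⟨Finset.mem_univ v, lt_of_le_of_ne (h1 v) (Ne.symm h0)⟩)
    rw [hsum]
    refine hc.sum_mem (fun v _ => h1 v) hone fun v hv => ?_
    have hpos := (Finset.mem_filter.1 hv).2
    have hvs : v ∈ s := by
      by_contra hvs
      rw [h3 v hvs] at hpos
      exact lt_irrefl _ hpos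
    exact hcon v hvs hpos
  exact hmem hxh

lemma TZ_joined {S : ClosedSurface V} {p : V → E3} {h : Set E3} (hc : Convex ℝ h)
    {s : Finset V} (hs : s ∈ S.faces) {x y : V → ℝ} (hx : x ∈ cell s) (hy : y ∈ cell s)
    (hxh : polyMap p x ∈ h) (hyh : polyMap p y ∈ h) : JoinedIn (S.pre p h) x y := by
  refine JoinedIn.of_segment_subset ?_
  rintro z ⟨a, b, ha, hb, hab, rfl⟩
  refine ⟨⟨s, hs, TZ_cell_convex s hx hy ha hb hab⟩, ?_⟩
  rw [TZ_polyMap_comb]
  exact hc hxh hyh ha hb hab

theorem TZ : TZ_stmt := by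
  intro V _ _ S p hV h hh
  obtain ⟨hc, hcc⟩ := TZ_convex hh
  -- vertices in the half-space are joined
  have hvv : ∀ u v, p u ∈ h → p v ∈ h → JoinedIn (S.pre p h) (vert u) (vert v) := by
    intro u v hu hv
    have h1 := hV h hh u v hu hv
    induction h1 with
    | refl =>
      obtain ⟨s, hs, hus⟩ := S.cover u
      exact TZ_joined hc hs (TZ_vert_cell hus) (TZ_vert_cell hus)
        (by rwa [TZ_polyMap_vert]) (by rwa [TZ_polyMap_vert])
    | tail _ h2 ih =>
      obtain ⟨⟨s, hs, has, hbs⟩, ha, hb⟩ := h2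
      exact (ih ha).trans (TZ_joined hc hs (TZ_vert_cell has) (TZ_vert_cell hbs)
        (by rwa [TZ_polyMap_vert]) (by rwa [TZ_polyMap_vert]))
  have hxv : ∀ x ∈ S.pre p h, ∃ v, p v ∈ h ∧ JoinedIn (S.pre p h) x (vert v) := by
    rintro x ⟨⟨s, hs, hxs⟩, hxh⟩
    obtain ⟨v, hvs, -, hvh⟩ := TZ_exists_vert hcc hxs hxh
    exact ⟨v, hvh, TZ_joined hc hs hxs (TZ_vert_cell hvs) hxh (by rwa [TZ_polyMap_vert])⟩
  rcases (S.pre p h).eq_empty_or_nonempty with h0 | ⟨x0, hx0⟩
  · rw [h0]
    exact isPreconnected_empty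
  · refine (IsPathConnected.isConnected ⟨x0, hx0, fun {y} hy => ?_⟩).isPreconnected
    obtain ⟨u, hu, hxu⟩ := hxv x0 hx0
    obtain ⟨v, hv, hyv⟩ := hxv y hy
    exact (hxu.trans (hvv u v hu hv)).trans hyv.symm

end Pool.Agent.helper45.TF
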